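import Pool.Agent.Lib.AB474.Main

/-!
Deciding whether a digraph of independence number two has an out-branching and an in-branching
without common arc is possible in polynomial time.
-/

namespace Pool.Agent.Results.MP_474ff4_lc.PolynomialTime

open Pool.Agent.Lib.AB474

/-- The language of digraphs with independence number two that have arc-disjoint out- and
in-branchings is in P. -/
theorem result : InP BranchLanguage := Tab.main

end Pool.Agent.Results.MP_474ff4_lc.PolynomialTime
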